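import Pool.Agent.K3h8.SF.Stm

/-!
# SF brick MONC: monomials in exchanges and involutions at the level of the category
-/

set_option autoImplicit false
set_option linter.unusedSectionVars false
set_option linter.unusedSimpArgs false
set_option backward.isDefEq.respectTransparency false
set_option backward.defeqAttrib.useBackward true

open CategoryTheory Limits MonoidalCategory
open Pool.Agent.Y112.KD Pool.Agent.R905 Pool.Agent.K3h8.SF
open Pool.Agent.Y112.SR (ptr ptr_symm)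
open Pool.Agent.Y116.MT (tr)

namespace Pool.Agent.K3h43.SF

universe v u w

section

variable {C : Type u} [Category.{v} C] [MonoidalCategory C] [SymmetricCategory C]

/-- The tensor product of an operator on `X ⊗ ⋯ ⊗ X` and of an operator on the last factor. -/
def bx {X : C} {n : ℕ} (a : tp X n ⟶ tp X n) (b : X ⟶ X) : tp X (n + 1) ⟶ tp X (n + 1) :=
  a ⊗ₘ b

lemma bx_comp {X : C} {n : ℕ} (a a' : tp X n ⟶ tp X n) (b b' : X ⟶ X) :
    bx a b ≫ bx a' b' = bx (a ≫ a') (b ≫ b') := by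
  simp only [bx, tensorHom_comp_tensorHom]

lemma bx_one {X : C} {n : ℕ} : bx (𝟙 (tp X n)) (𝟙 X) = 𝟙 (tp X (n + 1)) := by
  simp only [bx, id_tensorHom_id]

/-- The exchange of the last two factors. -/
def Sg (X : C) (n : ℕ) : tp X (n + 2) ⟶ tp X (n + 2) := sw (tp X n) X

lemma Sg_Sg (X : C) (n : ℕ) : Sg X n ≫ Sg X n = 𝟙 _ := sw_sw _ _

lemma Sg_braid (X : C) (n : ℕ) : Sg X (n + 1) ≫ bx (Sg X n) (𝟙 _) ≫ Sg X (n + 1) =
    bx (Sg X n) (𝟙 _) ≫ Sg X (n + 1) ≫ bx (Sg X n) (𝟙 _) := by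
  simp only [bx, Sg, tensorHom_id]
  exact braid (tp X n) X

lemma Sg_nat {X : C} {n : ℕ} (a : tp X n ⟶ tp X n) (b c : X ⟶ X) :
    bx (bx a b) c ≫ Sg X n = Sg X n ≫ bx (bx a c) b := sw_nat a b c

/-- An operator which is the identity or `s`. -/
def Pb {X : C} (s b : X ⟶ X) : Prop := b = 𝟙 _ ∨ b = s

lemma Pb.one {X : C} (s : X ⟶ X) : Pb s (𝟙 X) := Or.inl rfl

lemma Pb.sgn {X : C} (s : X ⟶ X) : Pb s s := Or.inr rfl

lemma Pb.comp {X : C} {s b c : X ⟶ X} (hs : s ≫ s = 𝟙 X) (hb : Pb s b) (hc : Pb s c) :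
    Pb s (b ≫ c) := by
  rcases hb with rfl | rfl
  · rwa [Category.id_comp]
  · rcases hc with rfl | rfl
    · rw [Category.comp_id]
      exact Pb.sgn _
    · rw [hs]
      exact Pb.one _

lemma Pb.sq {X : C} {s b : X ⟶ X} (hs : s ≫ s = 𝟙 X) (hb : Pb s b) : b ≫ b = 𝟙 X := by
  rcases hb with rfl | rfl
  · rw [Category.comp_id]
  · exact hs

/-- The monomials in the exchanges of neighbouring factors and the operators `s` of the factors. -/
inductive Mn {X : C} (s : X ⟶ X) : ∀ n : ℕ, (tp X n ⟶ tp X n) → Prop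
  | one (n : ℕ) : Mn s n (𝟙 _)
  | box (n : ℕ) (a : tp X n ⟶ tp X n) (b : X ⟶ X) : Mn s n a → Pb s b → Mn s (n + 1) (bx a b)
  | swp (n : ℕ) (a a' : tp X (n + 1) ⟶ tp X (n + 1)) (b : X ⟶ X) : Mn s (n + 1) a →
      Mn s (n + 1) a' → Pb s b → Mn s (n + 2) (bx a b ≫ Sg X n ≫ bx a' (𝟙 _))

variable {X : C} {s : X ⟶ X}

lemma Mn.sg (n : ℕ) : Mn s (n + 2) (Sg X n) := by
  have h := Mn.swp n (𝟙 _) (𝟙 _) (𝟙 _) (Mn.one (s := s) (n + 1)) (Mn.one (n + 1)) (Pb.one s)
  rwa [bx_one, Category.comp_id, Category.id_comp] at h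

lemma Mn.compBox (hs : s ≫ s = 𝟙 X) {n : ℕ}
    (IH : ∀ x y, Mn s n x → Mn s n y → Mn s n (x ≫ y))
    {x : tp X (n + 1) ⟶ tp X (n + 1)} (hx : Mn s (n + 1) x)
    {c : tp X n ⟶ tp X n} (hc : Mn s n c) {d : X ⟶ X}
    (hd : Pb s d) : Mn s (n + 1) (x ≫ bx c d) := by
  cases hx with
  | one => rw [Category.id_comp]; exact Mn.box _ _ _ hc hd
  | box _ a b ha hb => rw [bx_comp]; exact Mn.box _ _ _ (IH _ _ ha hc) (hb.comp hs hd)
  | swp m a a' b ha ha' hb =>
    have e1 : Sg X m ≫ bx (𝟙 _) d = bx (bx (𝟙 _) d) (𝟙 _) ≫ Sg X m := by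
      rw [Sg_nat, bx_one]
    have e2 : (bx a b ≫ Sg X m ≫ bx a' (𝟙 _)) ≫ bx c d =
        bx (a ≫ bx (𝟙 _) d) b ≫ Sg X m ≫ bx (a' ≫ c) (𝟙 _) := by
      have e3 : bx a' (𝟙 _) ≫ bx c d = bx (𝟙 _) d ≫ bx (a' ≫ c) (𝟙 _) := by
        rw [bx_comp, bx_comp, Category.id_comp, Category.id_comp, Category.comp_id]
      rw [Category.assoc, Category.assoc, e3, ← Category.assoc (Sg X m), e1, Category.assoc,
        ← Category.assoc (bx a b), bx_comp, Category.comp_id]
    rw [e2]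
    exact Mn.swp m _ _ _ (IH _ _ ha (Mn.box _ _ _ (Mn.one _) hd)) (IH _ _ ha' hc) hb

lemma Mn.compSg (hs : s ≫ s = 𝟙 X) {m : ℕ}
    (IH : ∀ x y, Mn s (m + 1) x → Mn s (m + 1) y → Mn s (m + 1) (x ≫ y))
    {x : tp X (m + 2) ⟶ tp X (m + 2)} (hx : Mn s (m + 2) x) :
    Mn s (m + 2) (x ≫ Sg X m) := by
  cases hx with
  | one => rw [Category.id_comp]; exact Mn.sg m
  | box _ a b ha hb =>
    have h := Mn.swp m a (𝟙 _) b ha (Mn.one _) hb
    rwa [bx_one, Category.comp_id] at h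
  | swp _ a a' b ha ha' hb =>
    cases ha' with
    | one =>
      rw [bx_one, Category.comp_id, Category.assoc, Sg_Sg, Category.comp_id]
      exact Mn.box _ _ _ ha hb
    | box _ h c hh hc =>
      have e1 : (bx a b ≫ Sg X m ≫ bx (bx h c) (𝟙 _)) ≫ Sg X m =
          bx (a ≫ bx h (𝟙 _)) (b ≫ c) := by
        rw [Category.assoc, Category.assoc, Sg_nat,
          ← Category.assoc (Sg X m), Sg_Sg, Category.id_comp, bx_comp]
      rw [e1]
      exact Mn.box _ _ _ (IH _ _ ha (Mn.box _ _ _ hh (Pb.one s))) (hb.comp hs hc)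
    | swp m' h h' c hh hh' hc =>
      have e1 : (bx a b ≫ Sg X (m' + 1) ≫ bx (bx h c ≫ Sg X m' ≫ bx h' (𝟙 _)) (𝟙 _)) ≫
          Sg X (m' + 1) = bx (a ≫ bx h (𝟙 _) ≫ Sg X m') (b ≫ c) ≫ Sg X (m' + 1) ≫
          bx (Sg X m' ≫ bx h' (𝟙 _)) (𝟙 _) := by
        have f1 : bx (bx h c ≫ Sg X m' ≫ bx h' (𝟙 _)) (𝟙 X) =
            bx (bx h c) (𝟙 _) ≫ bx (Sg X m') (𝟙 _) ≫ bx (bx h' (𝟙 _)) (𝟙 _) := by
          rw [bx_comp, bx_comp, Category.comp_id, Category.comp_id]
        have f2 : Sg X (m' + 1) ≫ bx (bx h c) (𝟙 _) =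
            bx (bx h (𝟙 _)) c ≫ Sg X (m' + 1) := (Sg_nat _ _ _).symm
        have f3 : bx (bx h' (𝟙 _)) (𝟙 _) ≫ Sg X (m' + 1) =
            Sg X (m' + 1) ≫ bx (bx h' (𝟙 _)) (𝟙 _) := Sg_nat _ _ _
        have f4 := Sg_braid X m'
        have f5 : bx (a ≫ bx h (𝟙 _) ≫ Sg X m') (b ≫ c) =
            bx a b ≫ bx (bx h (𝟙 _)) c ≫ bx (Sg X m') (𝟙 _) := by
          rw [bx_comp, bx_comp, Category.comp_id]
        have f6 : bx (Sg X m' ≫ bx h' (𝟙 _)) (𝟙 X) =
            bx (Sg X m') (𝟙 _) ≫ bx (bx h' (𝟙 _)) (𝟙 _) := by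
          rw [bx_comp, Category.comp_id]
        rw [f1, f5, f6]
        simp only [Category.assoc]
        rw [f3, reassoc_of% f2, reassoc_of% f4]
      rw [e1]
      exact Mn.swp _ _ _ _ (IH _ _ ha (IH _ _ (Mn.box _ _ _ hh (Pb.one s)) (Mn.sg m')))
        (IH _ _ (Mn.sg m') (Mn.box _ _ _ hh' (Pb.one s))) (hb.comp hs hc)

/-- Products of monomials are monomials. -/
lemma Mn.comp (hs : s ≫ s = 𝟙 X) (n : ℕ) : ∀ x y, Mn s n x → Mn s n y → Mn s n (x ≫ y) := by
  induction n with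
  | zero =>
    intro x y hx hy
    cases hx
    rwa [Category.id_comp]
  | succ n IH =>
    intro x y hx hy
    cases hy with
    | one => rwa [Category.comp_id]
    | box _ c d hc hd => exact Mn.compBox hs IH hx hc hd
    | swp m c c' d hc hc' hd =>
      rw [← Category.assoc, ← Category.assoc]
      exact Mn.compBox hs IH (Mn.compSg hs IH (Mn.compBox hs IH hx hc hd)) hc' (Pb.one s)

/-- Monomials are invertible. -/
lemma Mn.inv (hs : s ≫ s = 𝟙 X) {n : ℕ} {x : tp X n ⟶ tp X n} (hx : Mn s n x) :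
    ∃ y, Mn s n y ∧ x ≫ y = 𝟙 _ ∧ y ≫ x = 𝟙 _ := by
  induction hx with
  | one n => exact ⟨𝟙 _, Mn.one n, Category.comp_id _, Category.comp_id _⟩
  | box n a b ha hb ih =>
    obtain ⟨y, hy, h1, h2⟩ := ih
    refine ⟨bx y b, Mn.box _ _ _ hy hb, ?_, ?_⟩
    · rw [bx_comp, h1, hb.sq hs, bx_one]
    · rw [bx_comp, h2, hb.sq hs, bx_one]
  | swp n a a' b ha ha' hb ih ih' =>
    obtain ⟨y, hy, h1, h2⟩ := ih
    obtain ⟨y', hy', h1', h2'⟩ := ih'
    refine ⟨bx y' (𝟙 _) ≫ Sg X n ≫ bx y b, ?_, ?_, ?_⟩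
    · exact Mn.comp hs _ _ _ (Mn.box _ _ _ hy' (Pb.one s))
        (Mn.comp hs _ _ _ (Mn.sg n) (Mn.box _ _ _ hy hb))
    · have e1 : bx a' (𝟙 X) ≫ bx y' (𝟙 X) = 𝟙 _ := by
        rw [bx_comp, h1', Category.comp_id, bx_one]
      have e2 : bx a b ≫ bx y b = 𝟙 _ := by rw [bx_comp, h1, hb.sq hs, bx_one]
      simp only [Category.assoc]
      rw [reassoc_of% e1, ← Category.assoc (Sg X n), Sg_Sg, Category.id_comp, e2]
    · have e1 : bx y b ≫ bx a b = 𝟙 _ := by rw [bx_comp, h2, hb.sq hs, bx_one]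
      have e2 : bx y' (𝟙 X) ≫ bx a' (𝟙 X) = 𝟙 _ := by
        rw [bx_comp, h2', Category.comp_id, bx_one]
      simp only [Category.assoc]
      rw [reassoc_of% e1, ← Category.assoc (Sg X n), Sg_Sg, Category.id_comp, e2]

/-- There are finitely many monomials. -/
lemma Mn.finite (s : X ⟶ X) (n : ℕ) : {x | Mn s n x}.Finite := by
  have hP : {b | Pb s b}.Finite := by
    have : {b | Pb s b} = {𝟙 X, s} := by
      ext b
      simp [Pb]
    rw [this]
    exact Set.toFinite _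
  induction n with
  | zero =>
    refine (Set.finite_singleton (𝟙 (tp X 0))).subset ?_
    intro x hx
    cases hx
    rfl
  | succ n ih =>
    have h1 : ((fun p : (tp X n ⟶ tp X n) × (X ⟶ X) => bx p.1 p.2) ''
        ({x | Mn s n x} ×ˢ {b | Pb s b})).Finite := (ih.prod hP).image _
    rcases n with _ | n
    · refine ((Set.finite_singleton (𝟙 (tp X 1))).union h1).subset ?_
      intro x hx
      cases hx with
      | one => exact Or.inl rfl
      | box _ a b ha hb => exact Or.inr ⟨(a, b), ⟨ha, hb⟩, rfl⟩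
    · have h2 : ((fun p : ((tp X (n + 1) ⟶ tp X (n + 1)) × (tp X (n + 1) ⟶ tp X (n + 1))) ×
          (X ⟶ X) => bx p.1.1 p.2 ≫ Sg X n ≫ bx p.1.2 (𝟙 _)) ''
          (({x | Mn s (n + 1) x} ×ˢ {x | Mn s (n + 1) x}) ×ˢ {b | Pb s b})).Finite :=
        ((ih.prod ih).prod hP).image _
      refine (((Set.finite_singleton (𝟙 (tp X (n + 2)))).union h1).union h2).subset ?_
      intro x hx
      cases hx with
      | one => exact Or.inl (Or.inl rfl)
      | box _ a b ha hb => exact Or.inl (Or.inr ⟨(a, b), ⟨ha, hb⟩, rfl⟩)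
      | swp _ a a' b ha ha' hb => exact Or.inr ⟨((a, a'), b), ⟨⟨ha, ha'⟩, hb⟩, rfl⟩

/-- Generators are monomials. -/
lemma Mn.gen {n : ℕ} {g : tp X n ⟶ tp X n} (hg : Gen s n g) : Mn s n g := by
  induction hg with
  | last n => exact Mn.sg n
  | sgn n =>
    have h := Mn.box n (𝟙 _) s (Mn.one n) (Pb.sgn s)
    have e : bx (𝟙 (tp X n)) s = tp X n ◁ s := by simp only [bx, id_tensorHom]
    rwa [e] at h
  | lift n g hg ih =>
    have h := Mn.box n g (𝟙 X) ih (Pb.one s)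
    have e : bx g (𝟙 X) = g ▷ X := by simp only [bx, tensorHom_id]
    rwa [e] at h

end

section

variable {C : Type u} [Category.{v} C] [MonoidalCategory C] [SymmetricCategory C]
  [Preadditive C] [Linear ℚ C] [MonoidalPreadditive C] [MonoidalLinear ℚ C]
  {X : C} {s : X ⟶ X}

lemma whisker_mem {n : ℕ} {x : End (tp X n)} (hx : x ∈ Nat' s n) :
    en (X := tp X (n + 1)) ((x : tp X n ⟶ tp X n) ▷ X) ∈ Nat' s (n + 1) := by
  induction hx using Algebra.adjoin_induction with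
  | mem g hg => exact Algebra.subset_adjoin (Gen.lift _ _ hg)
  | algebraMap q =>
    have h1 : en (X := tp X (n + 1))
        (((algebraMap ℚ (End (tp X n)) q : End (tp X n)) : tp X n ⟶ tp X n) ▷ X) =
        algebraMap ℚ (End (tp X (n + 1))) q := by
      rw [Algebra.algebraMap_eq_smul_one, Algebra.algebraMap_eq_smul_one]
      have h2 : (q • 𝟙 (tp X n)) ▷ X = q • ((𝟙 (tp X n)) ▷ X) :=
        MonoidalLinear.smul_whiskerRight _ _ _
      rw [id_whiskerRight] at h2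
      exact h2
    rw [h1]
    exact Subalgebra.algebraMap_mem _ _
  | add x y _ _ hx hy =>
    have h1 : en (X := tp X (n + 1)) (((x + y : End (tp X n)) : tp X n ⟶ tp X n) ▷ X) =
        en (X := tp X (n + 1)) ((x : tp X n ⟶ tp X n) ▷ X) +
          en (X := tp X (n + 1)) ((y : tp X n ⟶ tp X n) ▷ X) := by
      have h2 : ((x : tp X n ⟶ tp X n) + (y : tp X n ⟶ tp X n)) ▷ X =
        (x : tp X n ⟶ tp X n) ▷ X + (y : tp X n ⟶ tp X n) ▷ X := by
        rw [MonoidalPreadditive.add_whiskerRight]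
      exact h2
    rw [h1]
    exact Subalgebra.add_mem _ hx hy
  | mul x y _ _ hx hy =>
    have h1 : en (X := tp X (n + 1)) (((x * y : End (tp X n)) : tp X n ⟶ tp X n) ▷ X) =
        en (X := tp X (n + 1)) ((x : tp X n ⟶ tp X n) ▷ X) *
          en (X := tp X (n + 1)) ((y : tp X n ⟶ tp X n) ▷ X) := by
      have h2 : ((y : tp X n ⟶ tp X n) ≫ (x : tp X n ⟶ tp X n)) ▷ X =
        (y : tp X n ⟶ tp X n) ▷ X ≫ (x : tp X n ⟶ tp X n) ▷ X := comp_whiskerRight _ _ _
      exact h2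
    rw [h1]
    exact Subalgebra.mul_mem _ hx hy

lemma box_mem {n : ℕ} {a : tp X n ⟶ tp X n} {b : X ⟶ X}
    (ha : en (X := tp X n) a ∈ Nat' s n) (hb : Pb s b) :
    en (X := tp X (n + 1)) (bx a b) ∈ Nat' s (n + 1) := by
  have h1 := whisker_mem ha
  rcases hb with rfl | rfl
  · have e : en (X := tp X (n + 1)) (bx a (𝟙 X)) = en (X := tp X (n + 1)) (a ▷ X) := by
      simp only [bx, tensorHom_id]
    rw [e]
    exact h1
  · have h2 : en (X := tp X (n + 1)) (tp X n ◁ b) ∈ Nat' b (n + 1) :=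
      Algebra.subset_adjoin (Gen.sgn n)
    have e : en (X := tp X (n + 1)) (bx a b) =
        en (X := tp X (n + 1)) (tp X n ◁ b) * en (X := tp X (n + 1)) (a ▷ X) := by
      rw [End.mul_def]
      exact MonoidalCategory.tensorHom_def a b
    rw [e]
    exact Subalgebra.mul_mem _ h2 h1

lemma Mn.mem {n : ℕ} {x : tp X n ⟶ tp X n} (hx : Mn s n x) : en (X := tp X n) x ∈ Nat' s n := by
  induction hx with
  | one n => exact Subalgebra.one_mem _
  | box n a b ha hb ih => exact box_mem ih hb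
  | swp n a a' b ha ha' hb ih ih' =>
    have h1 := box_mem ih hb
    have h2 := box_mem ih' (Pb.one s)
    have h3 : en (X := tp X (n + 2)) (Sg X n) ∈ Nat' s (n + 2) :=
      Algebra.subset_adjoin (Gen.last n)
    have e : en (X := tp X (n + 2)) (bx a b ≫ Sg X n ≫ bx a' (𝟙 X)) =
        (en (X := tp X (n + 2)) (bx a' (𝟙 X)) * en (X := tp X (n + 2)) (Sg X n)) *
          en (X := tp X (n + 2)) (bx a b) := by
      rw [End.mul_def, End.mul_def]
      rfl
    rw [e]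
    exact Subalgebra.mul_mem _ (Subalgebra.mul_mem _ h2 h3) h1

lemma mem_span (hs : s ≫ s = 𝟙 X) {n : ℕ} {x : End (tp X n)} (hx : x ∈ Nat' s n) :
    x ∈ Submodule.span ℚ {x : End (tp X n) | Mn s n x} := by
  induction hx using Algebra.adjoin_induction with
  | mem g hg => exact Submodule.subset_span (Mn.gen hg)
  | algebraMap q =>
    rw [Algebra.algebraMap_eq_smul_one]
    exact Submodule.smul_mem _ _ (Submodule.subset_span (Mn.one n))
  | add x y _ _ hx hy => exact Submodule.add_mem _ hx hy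
  | mul x y _ _ hx hy =>
    have h1 := Submodule.mul_mem_mul hx hy
    rw [Submodule.span_mul_span] at h1
    refine Submodule.span_mono ?_ h1
    rintro _ ⟨a, ha, b, hb, rfl⟩
    exact Mn.comp hs n _ _ hb ha

/-- The group of the monomials. -/
def Gam (hs : s ≫ s = 𝟙 X) (n : ℕ) : Subgroup (End (tp X n))ˣ where
  carrier := {g | Mn s n (g : End (tp X n))}
  mul_mem' {a b} ha hb := Mn.comp hs n _ _ hb ha
  one_mem' := Mn.one n
  inv_mem' {g} hg := by
    obtain ⟨y, hy, h1, h2⟩ := Mn.inv hs hg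
    have h3 : (g : End (tp X n)) * en (X := tp X n) y = 1 := h2
    have h4 : ((g⁻¹ : (End (tp X n))ˣ) : End (tp X n)) = en (X := tp X n) y := by
      rw [Units.inv_eq_of_mul_eq_one_right h3]
    show Mn s n ((g⁻¹ : (End (tp X n))ˣ) : End (tp X n))
    rw [h4]
    exact hy

instance (hs : s ≫ s = 𝟙 X) (n : ℕ) : Finite (Gam hs n) := by
  have h1 := (Mn.finite s n).to_subtype
  refine Finite.of_injective (fun g : Gam hs n =>
    (⟨((g : (End (tp X n))ˣ) : End (tp X n)), g.2⟩ : {x | Mn s n x})) ?_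
  intro a b hab
  have h2 := congrArg Subtype.val hab
  exact Subtype.ext (Units.ext h2)

/-- The homomorphism from the group algebra. -/
noncomputable def liftG (hs : s ≫ s = 𝟙 X) (n : ℕ) :
    MonoidAlgebra ℚ (Gam hs n) →ₐ[ℚ] End (tp X n) :=
  MonoidAlgebra.lift ℚ _ _ ((Units.coeHom (End (tp X n))).comp (Gam hs n).subtype)

lemma mem_range (hs : s ≫ s = 𝟙 X) {n : ℕ} {x : End (tp X n)} (hx : x ∈ Nat' s n) :
    ∃ W, liftG hs n W = x := by
  have h1 := mem_span hs hx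
  have h2 : Submodule.span ℚ {x : End (tp X n) | Mn s n x} ≤ LinearMap.range (liftG hs n).toLinearMap := by
    rw [Submodule.span_le]
    intro y hy
    obtain ⟨z, hz, e1, e2⟩ := Mn.inv hs hy
    let g : (End (tp X n))ˣ := ⟨y, z, e2, e1⟩
    refine ⟨MonoidAlgebra.of ℚ (Gam hs n) ⟨g, hy⟩, ?_⟩
    show liftG hs n _ = y
    rw [liftG, MonoidAlgebra.lift_of]
    rfl
  exact h2 h1

lemma range_mem (hs : s ≫ s = 𝟙 X) {n : ℕ} (W : MonoidAlgebra ℚ (Gam hs n)) :
    liftG hs n W ∈ Nat' s n := by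
  induction W using MonoidAlgebra.induction_on with
  | of g =>
    rw [liftG, MonoidAlgebra.lift_of]
    exact Mn.mem g.2
  | add f g hf hg => rw [map_add]; exact Subalgebra.add_mem _ hf hg
  | smul r f hf => rw [map_smul]; exact Subalgebra.smul_mem _ hf r

end

section

variable (C : Type u) [Category.{v} C] [MonoidalCategory C] [SymmetricCategory C]
  [Preadditive C] [Linear ℚ C] [MonoidalPreadditive C] [MonoidalLinear ℚ C]

/-- MONC 1 -/
theorem t_MONC1 : MONC1 C := by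
  intro X s hs n w hw
  obtain ⟨W, rfl⟩ := mem_range hs hw
  have : NeZero (Nat.card (Gam hs n) : ℚ) := ⟨by
    have := Nat.card_pos (α := Gam hs n)
    exact_mod_cast this.ne'⟩
  obtain ⟨e, he, hI⟩ := IsSemisimpleRing.ideal_eq_span_idempotent
    (Ideal.span {W} : Ideal (MonoidAlgebra ℚ (Gam hs n)))
  obtain ⟨U, hU⟩ : ∃ U, U * W = e := by
    have h1 : e ∈ Ideal.span {W} := by rw [hI]; exact Ideal.subset_span rfl
    exact Ideal.mem_span_singleton'.mp h1
  obtain ⟨r, hr⟩ : ∃ r, r * e = W := by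
    have h1 : W ∈ Ideal.span {e} := by rw [← hI]; exact Ideal.subset_span rfl
    exact Ideal.mem_span_singleton'.mp h1
  refine ⟨liftG hs n U, range_mem hs U, ?_⟩
  rw [← map_mul, ← map_mul, mul_assoc, hU]
  congr 1
  rw [← hr, mul_assoc, he.eq]

/-- MONC 3 -/
theorem t_MONC3 : MONC3 C := by
  intro X s hs x hx
  have h1 := mem_span hs hx
  clear hx
  induction h1 using Submodule.span_induction with
  | mem y hy =>
    cases hy with
    | one => exact ⟨1, 0, by rw [one_smul, zero_smul, add_zero]⟩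
    | box _ a b ha hb =>
      cases ha
      rcases hb with rfl | rfl
      · exact ⟨1, 0, by rw [one_smul, zero_smul, add_zero]; exact bx_one⟩
      · exact ⟨0, 1, by
          rw [one_smul, zero_smul, zero_add]
          simp only [bx, id_tensorHom]⟩
  | zero => exact ⟨0, 0, by rw [zero_smul, zero_smul, add_zero]⟩
  | add y z _ _ h1 h2 =>
    obtain ⟨a, b, h3⟩ := h1
    obtain ⟨a', b', h4⟩ := h2
    refine ⟨a + a', b + b', ?_⟩
    have h5 : (y : tp X 1 ⟶ tp X 1) + (z : tp X 1 ⟶ tp X 1) =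
        (a • 𝟙 _ + b • (tp X 0 ◁ s)) + (a' • 𝟙 _ + b' • (tp X 0 ◁ s)) := by rw [← h3, ← h4]
    refine Eq.trans h5 ?_
    module
  | smul q y _ h1 =>
    obtain ⟨a, b, h3⟩ := h1
    refine ⟨q * a, q * b, ?_⟩
    have h5 : q • (y : tp X 1 ⟶ tp X 1) = q • (a • 𝟙 _ + b • (tp X 0 ◁ s)) := by rw [← h3]
    refine Eq.trans h5 ?_
    module

variable [RightRigidCategory C]

/-- MONC 2 -/
theorem t_MONC2 : MONC2 C := by
  intro X s hs δ ε hδ hε n x hx
  have hb : ∀ b : X ⟶ X, Pb s b → ∃ t : ℚ, tr b = t • 𝟙 _ := by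
    rintro b (rfl | rfl)
    · exact ⟨δ, hδ⟩
    · exact ⟨ε, hε⟩
  have hbox : ∀ (a : tp X n ⟶ tp X n) (b : X ⟶ X), Mn s n a → Pb s b →
      en (X := tp X n) (ptr (bx a b)) ∈ Nat' s n := by
    intro a b ha hb'
    obtain ⟨t, ht⟩ := hb b hb'
    have e : ptr (bx a b) = t • a := ptr_tensor a b t ht
    rw [e]
    exact Subalgebra.smul_mem _ (Mn.mem ha) t
  have h1 := mem_span hs hx
  clear hx
  induction h1 using Submodule.span_induction with
  | mem y hy =>
    cases hy with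
    | one =>
      have h := hbox (𝟙 _) (𝟙 _) (Mn.one n) (Pb.one s)
      rwa [bx_one] at h
    | box _ a b ha hb' => exact hbox a b ha hb'
    | swp m a a' b ha ha' hb' =>
      have e1 : bx a b ≫ Sg X m ≫ bx a' (𝟙 _) =
          (a ▷ X) ≫ Sg X m ≫ ((bx (𝟙 (tp X m)) b ≫ a') ▷ X) := by
        have e2 : bx a b = (a ▷ X) ≫ (tp X (m + 1) ◁ b) := MonoidalCategory.tensorHom_def a b
        have e3 : (tp X (m + 1) ◁ b) ≫ Sg X m = Sg X m ≫ ((tp X m ◁ b) ▷ X) := sw_nat_last _ b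
        have e4 : (bx (𝟙 (tp X m)) b ≫ a') ▷ X = ((tp X m ◁ b) ▷ X) ≫ bx a' (𝟙 X) := by
          simp only [bx, id_tensorHom, tensorHom_id, comp_whiskerRight]
        rw [e2, e4, Category.assoc, reassoc_of% e3]
      have e5 : ptr (bx a b ≫ Sg X m ≫ bx a' (𝟙 _)) = a ≫ bx (𝟙 (tp X m)) b ≫ a' := by
        rw [e1, ptr_comp]
        have e6 : ptr (Sg X m) = 𝟙 _ := ptr_sw _ _
        rw [e6, Category.id_comp]
      rw [e5]
      exact Mn.mem (Mn.comp hs _ _ _ ha (Mn.comp hs _ _ _ (Mn.box _ _ _ (Mn.one _) hb') ha'))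
  | zero =>
    have e : ptr (0 : tp X (n + 1) ⟶ tp X (n + 1)) = 0 := (ptrL (tp X n) X).map_zero
    have e' : (ptr (0 : End (tp X (n + 1))) : End (tp X n)) = 0 := e
    rw [e']
    exact (Nat' s n).zero_mem
  | add y z _ _ h1 h2 =>
    have e : (ptr (y + z) : End (tp X n)) = (ptr y : End (tp X n)) + (ptr z : End (tp X n)) :=
      ptr_add (M := tp X n) (N := X) y z
    rw [e]
    exact (Nat' s n).add_mem h1 h2
  | smul q y _ h1 =>
    have e : (ptr (q • y) : End (tp X n)) = q • (ptr y : End (tp X n)) :=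
      ptr_smul (M := tp X n) (N := X) q y
    rw [e]
    exact (Nat' s n).smul_mem h1 q

end

end Pool.Agent.K3h43.SF
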